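import Mathlib

set_option autoImplicit false

namespace Pool.Agent.Results.MP_d93447_an.Counter

open Set Real

lemma enc {S : Set ℝ} {n : ℕ} (h : ∀ s : Finset ℝ, ↑s ⊆ S → s.card ≤ n) : S.encard ≤ n := by
  by_contra hn
  obtain ⟨t, ht, e⟩ := exists_subset_encard_eq (k := (n + 1 : ℕ)) (Order.add_one_le_of_lt (not_le.1 hn))
  have tf := finite_of_encard_eq_coe e
  lift t to Finset ℝ using tf
  have := h t ht
  rw [encard_coe_eq_coe_finsetCard, Nat.cast_inj] at e
  omega

lemma rolle {f f' : ℝ → ℝ} (hf : ∀ x, HasDerivAt f (f' x) x) {u v : ℝ} {n : ℕ}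
    (h : {x ∈ Ico u v | f' x = 0}.encard ≤ n) : {x ∈ Ico u v | f x = 0}.encard ≤ (n + 1 : ℕ) := by
  have tf := finite_of_encard_le_coe h
  refine enc fun s hs => (Finset.card_le_of_interleaved (t := tf.toFinset) ?_).trans ?_
  · intro x hx y hy hxy _
    obtain ⟨z, z1, z2⟩ := exists_hasDerivAt_eq_zero hxy
      (fun z _ => (hf z).continuousAt.continuousWithinAt) ((hs hx).2.trans (hs hy).2.symm)
      fun z _ => hf z
    exact ⟨z, tf.mem_toFinset.2 ⟨⟨(hs hx).1.1.trans z1.1.le, z1.2.trans (hs hy).1.2⟩, z2⟩, z1⟩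
  · rw [tf.encard_eq_coe_toFinset_card, Nat.cast_le] at h
    omega

lemma sinz {w : ℝ} (hw : 0 < w) (u c : ℝ) :
    {x ∈ Ico u (u + π / w) | sin (w * x) - c = 0}.encard ≤ (1 + 1 : ℕ) := by
  refine rolle (f' := fun x => cos (w * x) * w) (fun x => ?_) ?_
  · simpa using ((hasDerivAt_id x).const_mul w).sin.sub_const c
  refine encard_le_one_iff.2 fun x y ⟨hx, e1⟩ ⟨hy, e2⟩ => ?_
  obtain ⟨k, hk⟩ := cos_eq_zero_iff.1 ((mul_eq_zero.1 e1).resolve_right hw.ne')
  obtain ⟨l, hl⟩ := cos_eq_zero_iff.1 ((mul_eq_zero.1 e2).resolve_right hw.ne')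
  have e : w * (π / w) = π := by field_simp
  have a1 : w * x - w * y < π := by nlinarith [hx.2, hy.1]
  have a2 : w * y - w * x < π := by nlinarith [hy.2, hx.1]
  have b1 : (k : ℝ) < l + 1 := by nlinarith [pi_pos]
  have b2 : (l : ℝ) < k + 1 := by nlinarith [pi_pos]
  have : k = l := by
    norm_cast at b1 b2
    omega
  exact mul_left_cancel₀ hw.ne' (by rw [hk, hl, this])

noncomputable def y0 (w x : ℝ) : ℝ := x ^ 2 / 4 + arctan (w * sin (w * x)) / (2 * w ^ 2)
noncomputable def y1 (w x : ℝ) : ℝ := x / 2 + cos (w * x) / (2 * (1 + (w * sin (w * x)) ^ 2))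
noncomputable def y2 (w x : ℝ) : ℝ := ((1 + (w * sin (w * x)) ^ 2) ^ 2 -
  w * sin (w * x) * (1 + 2 * w ^ 2 - (w * sin (w * x)) ^ 2)) / (2 * (1 + (w * sin (w * x)) ^ 2) ^ 2)

lemma d0 {w : ℝ} (hw : 0 < w) (x : ℝ) : HasDerivAt (y0 w) (y1 w x) x := by
  have := ((hasDerivAt_pow 2 x).div_const 4).add
    (((((hasDerivAt_id x).const_mul w).sin.const_mul w).arctan).div_const (2 * w ^ 2))
  refine this.congr_deriv ?_
  simp only [y1, id]
  field_simp
  norm_num
  ring

lemma d1 (w x : ℝ) : HasDerivAt (y1 w) (y2 w x) x := by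
  have := ((hasDerivAt_id x).div_const 2).add (((hasDerivAt_id x).const_mul w).cos.div
    (((((hasDerivAt_id x).const_mul w).sin.const_mul w).pow 2).const_add 1 |>.const_mul 2)
    (by simp only [id, Pi.pow_apply]; positivity))
  refine this.congr_deriv ?_
  simp only [y2, id, Pi.pow_apply]
  field_simp
  rw [cos_sq']
  norm_num
  ring

lemma z2 {w : ℝ} (hw : 0 < w) (u : ℝ) : {x ∈ Ico u (u + π / w) | y2 w x = 0}.encard ≤ (8 : ℕ) := by
  let q : Polynomial ℝ := (1 + (.C w * .X) ^ 2) ^ 2 - .C w * .X * (1 + 2 * .C w ^ 2 - (.C w * .X) ^ 2)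
  have q0 : q ≠ 0 := fun h => by simpa [q] using congrArg (Polynomial.eval 0) h
  have q4 : q.natDegree ≤ 4 := by
    unfold q
    compute_degree
  refine enc fun s hs => (Finset.card_le_mul_card_image (f := fun x => sin (w * x)) s 2 ?_).trans ?_
  · intro c _
    have := le_trans (encard_le_encard (s := ↑(s.filter fun x => sin (w * x) = c)) fun x hx =>
      by exact ⟨(hs (Finset.mem_filter.1 hx).1).1, sub_eq_zero.2 (Finset.mem_filter.1 hx).2⟩)
      (sinz hw u c)
    rwa [encard_coe_eq_coe_finsetCard, Nat.cast_le] at this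
  · have : s.image (fun x => sin (w * x)) ⊆ q.roots.toFinset := by
      intro c hc
      obtain ⟨x, hx, rfl⟩ := Finset.mem_image.1 hc
      have := (div_eq_zero_iff.1 (hs hx).2).resolve_right (by positivity)
      simpa [q0, q] using this
    have := (Finset.card_le_card this).trans ((Multiset.toFinset_card_le _).trans q.card_roots')
    omega

lemma z0 {w : ℝ} (hw : 0 < w) (u a b : ℝ) :
    {x ∈ Ico u (u + π / w) | y0 w x - (a + b * x) = 0}.encard ≤ (8 + 1 + 1 : ℕ) := by
  refine rolle (f' := fun x => y1 w x - b) (fun x => ?_)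
    (rolle (fun x => (d1 w x).sub_const b) (z2 hw u))
  exact ((d0 hw x).sub (((hasDerivAt_id x).const_mul b).const_add a)).congr_deriv (by simp)

lemma three {w : ℝ} (hw : 0 < w) {a b x y z : ℝ} (h1 : x + π / w ≤ y) (h2 : y + π / w ≤ z)
    (e1 : y0 w x = a + b * x) (e2 : y0 w y = a + b * y) (e3 : y0 w z = a + b * z) : False := by
  have bd : ∀ t, |arctan t / (2 * w ^ 2)| ≤ (π / w) ^ 2 / 12 := fun t => by
    rw [abs_div, abs_of_pos (by positivity : 0 < 2 * w ^ 2), div_le_iff₀ (by positivity)]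
    have : |arctan t| ≤ π / 2 := abs_le.2 ⟨(neg_pi_div_two_lt_arctan t).le, (arctan_lt_pi_div_two t).le⟩
    field_simp
    nlinarith [pi_gt_three]
  have s0 : 0 < π / w := by positivity
  unfold y0 at e1 e2 e3
  have b1 := abs_le.1 (bd (w * sin (w * x)))
  have b2 := abs_le.1 (bd (w * sin (w * y)))
  have b3 := abs_le.1 (bd (w * sin (w * z)))
  generalize arctan (w * sin (w * x)) / (2 * w ^ 2) = p at *
  generalize arctan (w * sin (w * y)) / (2 * w ^ 2) = q at *
  generalize arctan (w * sin (w * z)) / (2 * w ^ 2) = r at *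
  generalize π / w = s at *
  have key : (y - x) * (z - y) * (z - x) / 4 = (z - x) * q - (z - y) * p - (y - x) * r := by
    linear_combination (z - y) * e1 - (z - x) * e2 + (y - x) * e3
  have k1 : s * s ≤ (y - x) * (z - y) := mul_le_mul (by linarith) (by linarith) s0.le (by linarith)
  have k2 := mul_le_mul_of_nonneg_right k1 (by linarith : 0 ≤ z - x)
  have k3 := mul_le_mul_of_nonneg_left b2.2 (by linarith : 0 ≤ z - x)
  have k4 := mul_le_mul_of_nonneg_left b1.1 (by linarith : 0 ≤ z - y)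
  have k5 := mul_le_mul_of_nonneg_left b3.1 (by linarith : 0 ≤ y - x)
  nlinarith [mul_pos (mul_pos s0 s0) (by linarith : 0 < z - x)]

lemma count {w : ℝ} (hw : 0 < w) (a b : ℝ) : {x | y0 w x = a + b * x}.encard ≤ (20 : ℕ) := by
  refine enc fun s hs => ?_
  have bd : ∀ u, (s.filter fun x => x ∈ Ico u (u + π / w)).card ≤ 10 := fun u => by
    have := le_trans (encard_le_encard (s := ↑(s.filter fun x => x ∈ Ico u (u + π / w))) fun x hx =>
      by exact ⟨(Finset.mem_filter.1 hx).2, sub_eq_zero.2 (hs (Finset.mem_filter.1 hx).1)⟩)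
      (z0 hw u a b)
    rwa [encard_coe_eq_coe_finsetCard, Nat.cast_le] at this
  rcases s.eq_empty_or_nonempty with rfl | ne
  · simp
  set u := s.min' ne
  rcases (s.filter fun x => u + π / w ≤ x).eq_empty_or_nonempty with e | ne'
  · refine le_trans (Finset.card_le_card fun x hx => ?_) ((bd u).trans (by norm_num))
    exact Finset.mem_filter.2 ⟨hx, s.min'_le x hx, not_le.1 (Finset.filter_eq_empty_iff.1 e hx)⟩
  set v := Finset.min' _ ne'
  have hv := Finset.mem_filter.1 (Finset.min'_mem _ ne')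
  refine le_trans (Finset.card_le_card fun x hx => ?_)
    ((Finset.card_union_le _ _).trans (add_le_add (bd u) (bd v)))
  rcases lt_or_ge x (u + π / w) with c | c
  · exact Finset.mem_union_left _ (Finset.mem_filter.2 ⟨hx, s.min'_le x hx, c⟩)
  · refine Finset.mem_union_right _ (Finset.mem_filter.2
      ⟨hx, Finset.min'_le _ x (Finset.mem_filter.2 ⟨hx, c⟩), not_le.1 fun h => ?_⟩)
    exact three hw hv.2 h (hs (s.min'_mem ne)) (hs hv.1) (hs hx)

theorem result (K : ℝ) : ∃ y : ℝ → ℝ, ContDiff ℝ 2 y ∧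
    (∀ x ∈ Icc (0 : ℝ) 1, |y x| ≤ 1 ∧ |deriv y x| ≤ 1) ∧
    K ≤ ∫ x in (0 : ℝ)..1, |deriv (deriv y) x| ∧
    ∀ a b : ℝ, {x ∈ Icc (0 : ℝ) 1 | y x = a + b * x}.encard ≤ 20 := by
  obtain ⟨n, hn⟩ := exists_nat_gt (max 1 (2 * K))
  have n1 := (le_max_left _ _).trans_lt hn
  have n2 := (le_max_right _ _).trans_lt hn
  have p3 := pi_gt_three
  set w := n * π with hw'
  have w3 : 3 < w := by nlinarith
  have hw : 0 < w := by linarith
  have e1 : deriv (y0 w) = y1 w := funext fun x => (d0 hw x).deriv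
  have e2 : deriv (y1 w) = y2 w := funext fun x => (d1 w x).deriv
  have c2 : Continuous (y2 w) := by
    unfold y2
    fun_prop (disch := intro x; positivity)
  refine ⟨y0 w, ContDiff.add (by fun_prop) (ContDiff.div_const (ContDiff.arctan (by fun_prop)) _),
    fun x hx => ⟨?_, ?_⟩, ?_,
    fun a b => (encard_le_encard fun x hx => hx.2).trans (count hw a b)⟩
  · refine (abs_add_le _ _).trans ?_
    have : |arctan (w * sin (w * x))| ≤ π / 2 :=
      abs_le.2 ⟨(neg_pi_div_two_lt_arctan _).le, (arctan_lt_pi_div_two _).le⟩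
    have h : |arctan (w * sin (w * x)) / (2 * w ^ 2)| ≤ 1 / 2 := by
      rw [abs_div, abs_of_pos (by positivity : 0 < 2 * w ^ 2), div_le_iff₀ (by positivity)]
      nlinarith [pi_le_four]
    rw [abs_of_nonneg (by positivity)]
    nlinarith [hx.1, hx.2]
  · rw [e1]
    refine (abs_add_le _ _).trans ?_
    have h : |cos (w * x) / (2 * (1 + (w * sin (w * x)) ^ 2))| ≤ 1 / 2 := by
      rw [abs_div, abs_of_pos (by positivity : 0 < 2 * (1 + (w * sin (w * x)) ^ 2)),
        div_le_iff₀ (by positivity)]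
      nlinarith [abs_cos_le_one (w * x), sq_nonneg (w * sin (w * x))]
    rw [abs_of_nonneg (by linarith [hx.1])]
    linarith [hx.2]
  rw [e1, e2]
  have n0 : (n : ℝ) ≠ 0 := by positivity
  have s := intervalIntegral.sum_integral_adjacent_intervals (μ := MeasureTheory.volume)
    (f := fun x => |y2 w x|) (a := fun k : ℕ => (k : ℝ) / n) (n := n)
    fun k _ => c2.abs.intervalIntegrable _ _
  simp only [Nat.cast_zero, zero_div, div_self n0] at s
  have v : ∀ k : ℕ, y1 w (k / n) = k / n / 2 + (-1) ^ k / 2 := fun k => by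
    simp [y1, show w * (k / n) = k * π by rw [hw']; field_simp, cos_nat_mul_pi]
  have : ∀ k ∈ Finset.range n, (1 / 2 : ℝ) ≤ ∫ x in (k : ℝ) / n..(k + 1 : ℕ) / n, |y2 w x| := by
    intro k _
    refine le_trans ?_ (intervalIntegral.abs_integral_le_integral_abs (by gcongr; omega))
    rw [intervalIntegral.integral_eq_sub_of_hasDerivAt (fun x _ => d1 w x)
      (c2.intervalIntegrable _ _), v, v]
    have t0 : 0 < 1 / (n : ℝ) := by positivity
    have t1 : 1 / (n : ℝ) ≤ 1 := by rw [div_le_one (by positivity)]; exact n1.le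
    push_cast
    rw [add_div (k : ℝ), pow_succ, le_abs]
    rcases neg_one_pow_eq_or ℝ k with h | h <;> rw [h]
    · right; linarith
    · left; linarith
  have := Finset.card_nsmul_le_sum _ _ _ this
  rw [s, Finset.card_range, nsmul_eq_mul] at this
  linarith

end Pool.Agent.Results.MP_d93447_an.Counter
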